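import Pool.Agent.W845.DH.Stm

/-!
Project DH (helper845), problem MP_ee1662_pr: part DH-H (helper654).
-/

set_option autoImplicit false
open scoped Classical
open Pool.Agent.W845.DH

namespace Pool.Agent.W654.DH

theorem mis_eq {V : Type} (D : V → V → Prop) (A B : Finset V) :
    mis D A B = ∑ u ∈ A, (B.filter (fun w => ¬ D u w)).card := by
  unfold mis
  rw [Finset.card_filter, Finset.sum_product]
  refine Finset.sum_congr rfl fun u _ => ?_
  rw [Finset.card_filter]

theorem mis_eq' {V : Type} (D : V → V → Prop) (A B : Finset V) :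
    mis D A B = ∑ w ∈ B, (A.filter (fun u => ¬ D u w)).card := by
  unfold mis
  rw [Finset.card_filter, Finset.sum_product_right]
  refine Finset.sum_congr rfl fun u _ => ?_
  rw [Finset.card_filter]

theorem count_le {V : Type} (A : Finset V) (g : V → ℕ) (x y : ℝ) (hx : 0 < x)
    (h : ((∑ u ∈ A, g u : ℕ) : ℝ) ≤ x * y) :
    ((A.filter (fun u => ¬ ((g u : ℝ) ≤ x))).card : ℝ) ≤ y := by
  have h1 : ((A.filter (fun u => ¬ ((g u : ℝ) ≤ x))).card : ℝ) * x ≤
      ∑ u ∈ A.filter (fun u => ¬ ((g u : ℝ) ≤ x)), (g u : ℝ) := by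
    rw [← nsmul_eq_mul]
    refine Finset.card_nsmul_le_sum _ _ _ fun u hu => ?_
    exact (not_le.1 (Finset.mem_filter.1 hu).2).le
  have h2 : ∑ u ∈ A.filter (fun u => ¬ ((g u : ℝ) ≤ x)), (g u : ℝ) ≤ ∑ u ∈ A, (g u : ℝ) :=
    Finset.sum_le_sum_of_subset_of_nonneg (Finset.filter_subset _ _)
      (fun _ _ _ => Nat.cast_nonneg _)
  push_cast at h
  have h3 : ((A.filter (fun u => ¬ ((g u : ℝ) ≤ x))).card : ℝ) * x ≤ y * x := by linarith
  exact le_of_mul_le_mul_right h3 hx

theorem sdiff_filter_card {V : Type} (B Y : Finset V) (p : V → Prop) :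
    (B.filter p).card ≤ ((B \ Y).filter p).card + Y.card := by
  have : B.filter p ⊆ (B \ Y).filter p ∪ Y := by
    intro v hv
    rw [Finset.mem_filter] at hv
    rw [Finset.mem_union, Finset.mem_filter, Finset.mem_sdiff]
    by_cases h : v ∈ Y
    · exact Or.inr h
    · exact Or.inl ⟨⟨hv.1, h⟩, hv.2⟩
  exact (Finset.card_le_card this).trans (Finset.card_union_le _ _)

theorem blk_of {V : Type} (D : V → V → Prop) (A B X Y : Finset V) (lam n : ℝ) (hlam : 0 < lam)
    (hlam2 : lam ≤ 1 / 100) (hn : 1 ≤ n) (h1 : ∀ v ∈ A, 32 * lam * n ≤ (od D v B : ℝ))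
    (h2 : ∀ w ∈ B, 32 * lam * n ≤ (idg D w A : ℝ)) (h3 : (mis D A B : ℝ) ≤ lam ^ 2 * n ^ 2)
    (hX : (X.card : ℝ) ≤ 4 * lam * n) (hY : (Y.card : ℝ) ≤ 4 * lam * n)
    (hc : (A \ X).card = (B \ Y).card) (hA : n / 4 ≤ (A.card : ℝ)) :
    Blk D (A \ X) (B \ Y) (fun u => (((B.filter (fun w => ¬ D u w)).card : ℕ) : ℝ) ≤ lam * n)
      (fun w => (((A.filter (fun u => ¬ D u w)).card : ℕ) : ℝ) ≤ lam * n)
      ⌊lam * n⌋₊ ⌈28 * lam * n⌉₊ ⌊lam ^ 2 * n ^ 2⌋₊ := by
  have hln : 0 < lam * n := by positivity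
  have hlf : ((⌊lam * n⌋₊ : ℕ) : ℝ) ≤ lam * n := Nat.floor_le hln.le
  have hbc : 28 * lam * n ≤ ((⌈28 * lam * n⌉₊ : ℕ) : ℝ) := Nat.le_ceil _
  have hcf : ((⌊lam ^ 2 * n ^ 2⌋₊ : ℕ) : ℝ) ≤ lam ^ 2 * n ^ 2 := Nat.floor_le (by positivity)
  have h5 : 5 * ⌊lam * n⌋₊ < ⌈28 * lam * n⌉₊ := by
    have : (5 * ((⌊lam * n⌋₊ : ℕ) : ℝ)) < ((⌈28 * lam * n⌉₊ : ℕ) : ℝ) := by linarith
    exact_mod_cast this
  refine ⟨hc, ?_, h5, ?_, ?_, ?_, ?_, ?_, ?_, ?_, ?_⟩
  · have e1 : (A.card : ℝ) ≤ ((A \ X).card : ℝ) + (X.card : ℝ) := by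
      have := Finset.card_le_card_sdiff_add_card (s := A) (t := X)
      exact_mod_cast this
    have : 2 * ((⌊lam * n⌋₊ : ℕ) : ℝ) < ((A \ X).card : ℝ) := by nlinarith
    exact_mod_cast this
  · have e1 : (((⌈28 * lam * n⌉₊ - 5 * ⌊lam * n⌋₊ : ℕ)) : ℝ) =
        ((⌈28 * lam * n⌉₊ : ℕ) : ℝ) - 5 * ((⌊lam * n⌋₊ : ℕ) : ℝ) := by
      rw [Nat.cast_sub h5.le]; push_cast; ring
    have e2 : 23 * (lam * n) ≤ (((⌈28 * lam * n⌉₊ - 5 * ⌊lam * n⌋₊ : ℕ)) : ℝ) := by
      rw [e1]; linarith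
    have e3 : (23 * (lam * n)) ^ 2 ≤ (((⌈28 * lam * n⌉₊ - 5 * ⌊lam * n⌋₊ : ℕ)) : ℝ) ^ 2 :=
      pow_le_pow_left₀ (by positivity) e2 2
    have e4 : 0 < lam ^ 2 * n ^ 2 := by positivity
    have e5 : 2 * ((⌊lam ^ 2 * n ^ 2⌋₊ : ℕ) : ℝ) <
        (((⌈28 * lam * n⌉₊ - 5 * ⌊lam * n⌋₊ : ℕ)) : ℝ) ^ 2 := by
      refine lt_of_lt_of_le ?_ e3
      nlinarith
    exact_mod_cast e5
  · rw [Nat.le_floor_iff hln.le]
    have e1 := count_le A (fun u => (B.filter (fun w => ¬ D u w)).card) (lam * n) (lam * n) hln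
      (by rw [← mis_eq]; refine h3.trans (le_of_eq ?_); ring)
    refine le_trans ?_ e1
    exact_mod_cast Finset.card_le_card (Finset.filter_subset_filter _ Finset.sdiff_subset)
  · rw [Nat.le_floor_iff hln.le]
    have e1 := count_le B (fun w => (A.filter (fun u => ¬ D u w)).card) (lam * n) (lam * n) hln
      (by rw [← mis_eq']; refine h3.trans (le_of_eq ?_); ring)
    refine le_trans ?_ e1
    exact_mod_cast Finset.card_le_card (Finset.filter_subset_filter _ Finset.sdiff_subset)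
  · intro u _ hP
    rw [Nat.le_floor_iff hln.le]
    refine le_trans ?_ hP
    exact_mod_cast Finset.card_le_card (Finset.filter_subset_filter _ Finset.sdiff_subset)
  · intro w _ hQ
    rw [Nat.le_floor_iff hln.le]
    refine le_trans ?_ hQ
    exact_mod_cast Finset.card_le_card (Finset.filter_subset_filter _ Finset.sdiff_subset)
  · intro u hu
    rw [Nat.ceil_le]
    have e1 := h1 u (Finset.mem_sdiff.1 hu).1
    have e2 : (od D u B : ℝ) ≤ (od D u (B \ Y) : ℝ) + (Y.card : ℝ) := by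
      have := sdiff_filter_card B Y (fun w => D u w)
      unfold od
      exact_mod_cast this
    linarith
  · intro w hw
    rw [Nat.ceil_le]
    have e1 := h2 w (Finset.mem_sdiff.1 hw).1
    have e2 : (idg D w A : ℝ) ≤ (idg D w (A \ X) : ℝ) + (X.card : ℝ) := by
      have := sdiff_filter_card A X (fun v => D v w)
      unfold idg
      exact_mod_cast this
    linarith
  · rw [Nat.le_floor_iff (by positivity)]
    refine le_trans ?_ h3
    have : mis D (A \ X) (B \ Y) ≤ mis D A B := by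
      unfold mis
      exact Finset.card_le_card (Finset.filter_subset_filter _
        (Finset.product_subset_product Finset.sdiff_subset Finset.sdiff_subset))
    exact_mod_cast this

theorem h_thm : S_HP → S_H := by
  intro HP lam hlam hlam2
  refine ⟨1, ?_⟩
  intro V _ D G S T F1 F2 hN hDG hPart hS1 hS2 hT1 hT2 hVD hG hcard hF1 hF2 heq hconn
  set n : ℝ := (Fintype.card V : ℝ) with hn
  have hn1 : 1 ≤ n := by rw [hn]; exact_mod_cast hN
  obtain ⟨p1, p2, p3, p4, p5⟩ := hPart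
  rw [← hn] at p1 p2 p3 p4 p5
  have hm1 : (mis D S Tᶜ : ℝ) ≤ lam ^ 2 * n ^ 2 := by
    have : (0 : ℝ) ≤ (mis D Sᶜ T : ℝ) := Nat.cast_nonneg _
    linarith
  have hm2 : (mis D Sᶜ T : ℝ) ≤ lam ^ 2 * n ^ 2 := by
    have : (0 : ℝ) ≤ (mis D S Tᶜ : ℝ) := Nat.cast_nonneg _
    linarith
  have hc1 : (F1.card : ℝ) ≤ 4 * lam * n := by
    refine le_trans ?_ hcard
    exact_mod_cast Finset.card_le_card Finset.subset_union_left
  have hc2 : (F2.card : ℝ) ≤ 4 * lam * n := by
    refine le_trans ?_ hcard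
    exact_mod_cast Finset.card_le_card Finset.subset_union_right
  have i1 : (F1.image Prod.fst).card = F1.card := by
    refine Finset.card_image_of_injOn ?_
    intro e he f hf hef
    by_contra hne
    exact (hVD.2 e (Finset.mem_union_left _ he) f (Finset.mem_union_left _ hf) hne).1 hef
  have i2 : (F1.image Prod.snd).card = F1.card := by
    refine Finset.card_image_of_injOn ?_
    intro e he f hf hef
    by_contra hne
    exact (hVD.2 e (Finset.mem_union_left _ he) f (Finset.mem_union_left _ hf) hne).2.2.2 hef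
  have i3 : (F2.image Prod.fst).card = F2.card := by
    refine Finset.card_image_of_injOn ?_
    intro e he f hf hef
    by_contra hne
    exact (hVD.2 e (Finset.mem_union_right _ he) f (Finset.mem_union_right _ hf) hne).1 hef
  have i4 : (F2.image Prod.snd).card = F2.card := by
    refine Finset.card_image_of_injOn ?_
    intro e he f hf hef
    by_contra hne
    exact (hVD.2 e (Finset.mem_union_right _ he) f (Finset.mem_union_right _ hf) hne).2.2.2 hef
  have s1 : F1.image Prod.fst ⊆ S := by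
    intro v hv
    obtain ⟨e, he, rfl⟩ := Finset.mem_image.1 hv
    exact (hF1 e he).1
  have s2 : F1.image Prod.snd ⊆ T := by
    intro v hv
    obtain ⟨e, he, rfl⟩ := Finset.mem_image.1 hv
    exact (hF1 e he).2
  have s3 : F2.image Prod.fst ⊆ Sᶜ := by
    intro v hv
    obtain ⟨e, he, rfl⟩ := Finset.mem_image.1 hv
    exact Finset.mem_compl.2 (hF2 e he).1
  have s4 : F2.image Prod.snd ⊆ Tᶜ := by
    intro v hv
    obtain ⟨e, he, rfl⟩ := Finset.mem_image.1 hv
    exact Finset.mem_compl.2 (hF2 e he).2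
  have k1 : (S \ F1.image Prod.fst).card + F1.card = S.card := by
    rw [← i1]; exact Finset.card_sdiff_add_card_eq_card s1
  have k2 : (T \ F1.image Prod.snd).card + F1.card = T.card := by
    rw [← i2]; exact Finset.card_sdiff_add_card_eq_card s2
  have k3 : (Sᶜ \ F2.image Prod.fst).card + F2.card = Sᶜ.card := by
    rw [← i3]; exact Finset.card_sdiff_add_card_eq_card s3
  have k4 : (Tᶜ \ F2.image Prod.snd).card + F2.card = Tᶜ.card := by
    rw [← i4]; exact Finset.card_sdiff_add_card_eq_card s4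
  have k5 : Sᶜ.card + S.card = Fintype.card V := by
    rw [add_comm]; exact Finset.card_add_card_compl S
  have k6 : Tᶜ.card + T.card = Fintype.card V := by
    rw [add_comm]; exact Finset.card_add_card_compl T
  have hSc : n / 4 ≤ ((Sᶜ).card : ℝ) := by
    have : ((Sᶜ).card : ℝ) + (S.card : ℝ) = n := by rw [hn]; exact_mod_cast k5
    linarith
  have B1 := blk_of D S Tᶜ (F1.image Prod.fst) (F2.image Prod.snd) lam n hlam hlam2 hn1 p1
    (fun w hw => p4 w (Finset.mem_compl.1 hw)) hm1 (by rw [i1]; exact hc1)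
    (by rw [i4]; exact hc2) (by omega) hS1
  have B2 := blk_of D Sᶜ T (F2.image Prod.fst) (F1.image Prod.snd) lam n hlam hlam2 hn1
    (fun w hw => p2 w (Finset.mem_compl.1 hw)) p3 hm2 (by rw [i3]; exact hc2)
    (by rw [i2]; exact hc1) (by omega) hSc
  refine HP V D G (F1 ∪ F2) _ _ _ _ _ _ _ _ _ _ _ _ _ _ hDG B1 B2 hVD hG ?_ ?_ ?_ ?_ ?_ ?_
  · rw [Finset.disjoint_left]
    intro v hv hv'
    exact Finset.mem_compl.1 (Finset.mem_sdiff.1 hv').1 (Finset.mem_sdiff.1 hv).1
  · rw [Finset.disjoint_left]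
    intro v hv hv'
    exact Finset.mem_compl.1 (Finset.mem_sdiff.1 hv).1 (Finset.mem_sdiff.1 hv').1
  · intro e he
    rcases Finset.mem_union.1 he with h | h
    · refine ⟨fun h' => (Finset.mem_sdiff.1 h').2 (Finset.mem_image_of_mem _ h), fun h' =>
        Finset.mem_compl.1 (Finset.mem_sdiff.1 h').1 (hF1 e h).1, fun h' =>
        Finset.mem_compl.1 (Finset.mem_sdiff.1 h').1 (hF1 e h).2,
        fun h' => (Finset.mem_sdiff.1 h').2 (Finset.mem_image_of_mem _ h)⟩
    · refine ⟨fun h' => (hF2 e h).1 (Finset.mem_sdiff.1 h').1,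
        fun h' => (Finset.mem_sdiff.1 h').2 (Finset.mem_image_of_mem _ h),
        fun h' => (Finset.mem_sdiff.1 h').2 (Finset.mem_image_of_mem _ h),
        fun h' => (hF2 e h).2 (Finset.mem_sdiff.1 h').1⟩
  · intro v
    by_cases hv : v ∈ S
    · by_cases hv' : v ∈ F1.image Prod.fst
      · obtain ⟨e, he, hev⟩ := Finset.mem_image.1 hv'
        exact Or.inr (Or.inr ⟨e, Finset.mem_union_left _ he, hev⟩)
      · exact Or.inl (Finset.mem_sdiff.2 ⟨hv, hv'⟩)
    · by_cases hv' : v ∈ F2.image Prod.fst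
      · obtain ⟨e, he, hev⟩ := Finset.mem_image.1 hv'
        exact Or.inr (Or.inr ⟨e, Finset.mem_union_right _ he, hev⟩)
      · exact Or.inr (Or.inl (Finset.mem_sdiff.2 ⟨Finset.mem_compl.2 hv, hv'⟩))
  · intro v
    by_cases hv : v ∈ T
    · by_cases hv' : v ∈ F1.image Prod.snd
      · obtain ⟨e, he, hev⟩ := Finset.mem_image.1 hv'
        exact Or.inr (Or.inr ⟨e, Finset.mem_union_left _ he, hev⟩)
      · exact Or.inr (Or.inl (Finset.mem_sdiff.2 ⟨hv, hv'⟩))
    · by_cases hv' : v ∈ F2.image Prod.snd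
      · obtain ⟨e, he, hev⟩ := Finset.mem_image.1 hv'
        exact Or.inr (Or.inr ⟨e, Finset.mem_union_right _ he, hev⟩)
      · exact Or.inl (Finset.mem_sdiff.2 ⟨Finset.mem_compl.2 hv, hv'⟩)
  · rcases hconn with ⟨v, hvS, hvT, hvs⟩ | ⟨v, hvS, hvT, hvs⟩ | ⟨e, he, heT, heS⟩
    · left
      refine ⟨v, Finset.mem_sdiff.2 ⟨hvS, fun h => hvs ?_⟩, Finset.mem_sdiff.2 ⟨hvT, fun h => hvs ?_⟩⟩
      · obtain ⟨f, hf, hfv⟩ := Finset.mem_image.1 h
        exact Finset.mem_union_left _ (Finset.mem_image.2 ⟨f, Finset.mem_union_left _ hf, hfv⟩)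
      · obtain ⟨f, hf, hfv⟩ := Finset.mem_image.1 h
        exact Finset.mem_union_right _ (Finset.mem_image.2 ⟨f, Finset.mem_union_left _ hf, hfv⟩)
    · right; left
      refine ⟨v, Finset.mem_sdiff.2 ⟨Finset.mem_compl.2 hvS, fun h => hvs ?_⟩,
        Finset.mem_sdiff.2 ⟨Finset.mem_compl.2 hvT, fun h => hvs ?_⟩⟩
      · obtain ⟨f, hf, hfv⟩ := Finset.mem_image.1 h
        exact Finset.mem_union_left _ (Finset.mem_image.2 ⟨f, Finset.mem_union_right _ hf, hfv⟩)
      · obtain ⟨f, hf, hfv⟩ := Finset.mem_image.1 h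
        exact Finset.mem_union_right _ (Finset.mem_image.2 ⟨f, Finset.mem_union_right _ hf, hfv⟩)
    · right; right
      refine ⟨e, Finset.mem_union_left _ he, Finset.mem_sdiff.2 ⟨Finset.mem_compl.2 heT, fun h => ?_⟩,
        Finset.mem_sdiff.2 ⟨Finset.mem_compl.2 heS, fun h => ?_⟩⟩
      · obtain ⟨f, hf, hfv⟩ := Finset.mem_image.1 h
        have hne : e ≠ f := by
          intro hef
          rw [← hef] at hf
          exact (hF2 e hf).1 (hF1 e he).1
        exact (hVD.2 e (Finset.mem_union_left _ he) f (Finset.mem_union_right _ hf) hne).2.1 hfv.symm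
      · obtain ⟨f, hf, hfv⟩ := Finset.mem_image.1 h
        have hne : e ≠ f := by
          intro hef
          rw [← hef] at hf
          exact (hF2 e hf).1 (hF1 e he).1
        exact (hVD.2 e (Finset.mem_union_left _ he) f (Finset.mem_union_right _ hf) hne).2.2.1
          hfv.symm

end Pool.Agent.W654.DH
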